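import Pool.Agent.Lib.MP_833c47_lc.Defs
import Pool.Agent.Shared.NP.Defs
import Pool.Agent.Lib.MP_833c47_lc.Main

/-! Global domination for two edge-disjoint Hamiltonian paths is NP-complete. -/

open Pool.Agent.Lib.MP_833c47_lc Pool.Agent.Shared.NP

theorem Pool.Agent.Results.MP_833c47_lc.TwoPaths.result : NPComplete encInst Yes :=
  npComplete
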